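import Pool.Agent.Helper53.UW.Num
import Pool.Agent.Helper13.UV.PRA

/-!
# Project UR3 (MP_c578c8_lc), packet FWV: the value of the simulation
-/

set_option autoImplicit false

namespace Pool.Agent.Helper81.UW

open Pool.Agent.Helper65.LinSpace Pool.Agent.Helper78.Mpc
open Pool.Agent.Helper65.BR (bT)
open Pool.Agent.Helper53.CTG (ev)
open Pool.Agent.Helper53.UR (betU KU)
open Pool.Agent.Helper53.UV (RM TOk tb eV okV bV cV Qn)
open Pool.Agent.Helper53.UW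
open Pool.Agent.Helper81.Sus3 (vf)

theorem le01_one {a b : ℕ} (h : le01 a b ≠ 0) : le01 a b = 1 := by
  unfold le01 at h ⊢
  split_ifs at h ⊢ with h1
  · rfl
  · exact absurd rfl h

theorem eq01_one {a b : ℕ} (h : eq01 a b ≠ 0) : eq01 a b = 1 ∧ a = b := by
  unfold eq01 at h ⊢
  split_ifs at h ⊢ with h1
  · exact ⟨rfl, h1⟩
  · exact absurd rfl h

theorem okW_ne {n T : ℕ} (h : okW n T ≠ 0) : okV n T ≠ 0 ∧ bT n T 2 = bT n T 0 ∧
    bT n T 3 = bT n T 0 ∧ okW n T = 1 := by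
  have h' := h
  unfold okW at h'
  obtain ⟨h1, h2⟩ := Nat.mul_ne_zero_iff.1 h'
  obtain ⟨h2, h3⟩ := Nat.mul_ne_zero_iff.1 h2
  obtain ⟨h3, h4⟩ := Nat.mul_ne_zero_iff.1 h3
  obtain ⟨h4, h5⟩ := Nat.mul_ne_zero_iff.1 h4
  refine ⟨h1, (eq01_one h2).2, (eq01_one h3).2, ?_⟩
  have h6 : okV n T = 1 := by
    unfold okV at h1 ⊢
    obtain ⟨g1, g2⟩ := Nat.mul_ne_zero_iff.1 h1
    obtain ⟨g2, g3⟩ := Nat.mul_ne_zero_iff.1 g2
    rw [le01_one g1, le01_one g2, le01_one g3]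
  unfold okW
  rw [h6, (eq01_one h2).1, (eq01_one h3).1, le01_one h4, le01_one h5]

theorem zn_T (z : Qw) : Qn.T (zn z) = z.1.2.2.2 :=
  Nat.mul_div_cancel _ (Nat.succ_pos _)

theorem zn_n (z : Qw) : Qn.n (zn z) = Nat.log 2 z.1.2.1 := rfl

/-- **FWV.** -/
theorem gFWV : GoalFWV := by
  intro hU hTR c₀ e x y T c p d p' Y τ a
  obtain ⟨z, hz⟩ : ∃ z : Qw, z = ((e, x, y, T), c, p, d, p', Y, τ, a) := ⟨_, rfl⟩
  have hn : Qn.n (zn z) = Nat.log 2 x := by rw [hz]; rfl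
  have hT : Qn.T (zn z) = T := by rw [zn_T, hz]
  have hF : FW c₀ e x y T c p d p' Y τ a = lt01 0 (okW (Qn.n (zn z)) (Qn.T (zn z)) *
      eq01 ((qW c₀).val z) 1) := by
    rw [hz]
    rfl
  rw [hn, hT] at hF
  have hm : mW c₀ z = um (prmW c₀ e x y T) τ Y c p d p' a := by rw [hz]; rfl
  rw [hF]
  by_cases hok : okW (Nat.log 2 x) T = 0
  · rw [hok, zero_mul]
    constructor
    · intro h
      exact absurd h (by decide)
    · rintro ⟨h, -⟩
      exact absurd rfl h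
  · obtain ⟨h1, h2, h3, h4⟩ := okW_ne hok
    have hk := Pool.Agent.Helper13.UV.okV_ne h1
    have hb : bV (Nat.log 2 x) T = betU (Nat.log 2 x) T := if_neg h1
    have hc : cV (Nat.log 2 x) T = bT (Nat.log 2 x) T 2 + 2 := if_neg h1
    have hV : (prmW c₀ e x y T).V = bT (Nat.log 2 x) T 0 := by
      show okW (Nat.log 2 x) T * bT (Nat.log 2 x) T 0 = _
      rw [h4, one_mul]
    have hZ : (prmW c₀ e x y T).Z = bT (Nat.log 2 x) T 1 := by
      show okW (Nat.log 2 x) T * bT (Nat.log 2 x) T 1 = _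
      rw [h4, one_mul]
    have htok : TOk (mW c₀ z) (eV (Nat.log 2 x) T) (KU (Nat.log 2 x) T) (bV (Nat.log 2 x) T)
        (cV (Nat.log 2 x) T) := by
      rw [hm]
      refine ⟨hU.ok _ _ _ _ _ _ _ _, Pool.Agent.Helper13.UV.K_pos _ _,
        (Pool.Agent.Helper13.UV.c_le _ _).2, ?_, ?_, ?_⟩
      · show (prmW c₀ e x y T).V + 1 < _
        rw [hV, hc, h2]
        omega
      · show (prmW c₀ e x y T).V + 1 + ((prmW c₀ e x y T).V + 1) * 2 ^ eV (Nat.log 2 x) T ≤ _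
        rw [hV, hb]
        have := hk.1
        rwa [h3] at this
      · show (prmW c₀ e x y T).Z + 1 ≤ _
        rw [hZ, hb]
        exact hk.2.1
    have hval : (qW c₀).val z = (vf (prmW c₀ e x y T) τ Y c p d p' a
        (KU (Nat.log 2 x) T * 2 ^ eV (Nat.log 2 x) T)).1 := by
      have e1 : (qW c₀).val z = ev (tb (mW c₀ z) (eV (Qn.n (zn z)) (Qn.T (zn z)))
          (KU (Qn.n (zn z)) (Qn.T (zn z)) * (eV (Qn.n (zn z)) (Qn.T (zn z)) + 3))
          (bV (Qn.n (zn z)) (Qn.T (zn z)))) (eV (Qn.n (zn z)) (Qn.T (zn z)) + 3)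
          (cV (Qn.n (zn z)) (Qn.T (zn z)))
          (KU (Qn.n (zn z)) (Qn.T (zn z)) * (eV (Qn.n (zn z)) (Qn.T (zn z)) + 3)) 1 0 := rfl
      rw [e1, hn, hT, hTR _ _ _ _ _ htok, hm, hU.eq]
    rw [h4, one_mul, hval]
    constructor
    · intro h
      refine ⟨one_ne_zero, ?_⟩
      by_contra hne
      rw [show eq01 ((vf (prmW c₀ e x y T) τ Y c p d p' a
        (KU (Nat.log 2 x) T * 2 ^ eV (Nat.log 2 x) T)).1) 1 = 0 from if_neg hne] at h
      exact absurd h (by decide)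
    · rintro ⟨-, h⟩
      rw [show eq01 ((vf (prmW c₀ e x y T) τ Y c p d p' a
        (KU (Nat.log 2 x) T * 2 ^ eV (Nat.log 2 x) T)).1) 1 = 1 from if_pos h]
      rfl

end Pool.Agent.Helper81.UW
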